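import Mathlib

/-! # Ranks and maps with torsion kernel -/

set_option autoImplicit false

namespace Pool.Agent.U854.TW

open Module

/-- a map with torsion kernel -/
theorem finrank_le_tor {A B : Type} [AddCommGroup A] [AddCommGroup B] [Module.Finite ℤ B]
    (f : A →+ B) (h : ∀ a, f a = 0 → ∃ n : ℤ, n ≠ 0 ∧ n • a = 0) :
    finrank ℤ A ≤ finrank ℤ B := by
  have h1 := rank_quotient_add_rank_of_isDomain (LinearMap.ker f.toIntLinearMap)
  have h2 : Module.rank ℤ (LinearMap.ker f.toIntLinearMap) = 0 := by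
    rw [rank_eq_zero_iff]
    rintro ⟨a, ha⟩
    obtain ⟨n, hn, hna⟩ := h a ha
    exact ⟨n, hn, Subtype.ext hna⟩
  rw [h2, add_zero] at h1
  have h3 : Function.Injective ((LinearMap.ker f.toIntLinearMap).liftQ f.toIntLinearMap le_rfl) :=
    LinearMap.ker_eq_bot.1 (Submodule.ker_liftQ_eq_bot' _ _ rfl)
  have h4 := LinearMap.rank_le_of_injective _ h3
  rw [h1] at h4
  exact Module.finrank_le_finrank_of_rank_le_rank (by simpa using h4) (rank_lt_aleph0 ℤ B)

/-- many maps -/
theorem finrank_le_sum {A : Type} [AddCommGroup A] {T : Type} [Fintype T] {B : T → Type}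
    [∀ t, AddCommGroup (B t)] [∀ t, Module.Finite ℤ (B t)] (f : ∀ t, A →+ B t)
    (h : ∀ a, (∀ t, ∃ n : ℤ, n ≠ 0 ∧ n • f t a = 0) → ∃ n : ℤ, n ≠ 0 ∧ n • a = 0) :
    finrank ℤ A ≤ ∑ t, finrank ℤ (B t) := by
  let C : T → Type := fun t => B t ⧸ Submodule.torsion ℤ (B t)
  have hfree : ∀ t, Module.Free ℤ (C t) := fun t => inferInstance
  have hfin : ∀ t, Module.Finite ℤ (C t) := fun t => inferInstance
  let g : A →+ (∀ t, C t) := 
    { toFun := fun a t => Submodule.Quotient.mk (f t a)
      map_zero' := by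
        funext t
        rw [map_zero]
        rfl
      map_add' := fun a b => by
        funext t
        rw [map_add]
        rfl }
  have h1 : finrank ℤ A ≤ finrank ℤ (∀ t, C t) := by
    refine finrank_le_tor g fun a ha => h a fun t => ?_
    have h2 : (Submodule.Quotient.mk (f t a) : C t) = 0 := congrFun ha t
    rw [Submodule.Quotient.mk_eq_zero, Submodule.mem_torsion_iff] at h2
    obtain ⟨n, hn⟩ := h2
    exact ⟨n, nonZeroDivisors.ne_zero n.2, hn⟩
  refine h1.trans ?_
  rw [Module.finrank_pi_fintype]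
  exact Finset.sum_le_sum fun t _ => Submodule.finrank_quotient_le _

end Pool.Agent.U854.TW
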