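import Pool.Agent.R432.C7
import Pool.Agent.U854.TW.Fr

/-!
# The rank over `K(∛d_1, …, ∛d_n)`
-/

set_option autoImplicit false
set_option linter.unusedSectionVars false

open WeierstrassCurve

namespace Pool.Agent.U854.TW

open Pool.Agent.TH841.NF (Sc tF tF_some tF_add)
open Pool.Agent.Y710.CTE (fin_pre co co_inj)
open Pool.Agent.R432.C

open scoped Classical

/-- **The rank over `F = K(∛d_1, …, ∛d_n)`** is at most the sum of the ranks of the twists. -/
theorem rank_F {K F : Type} [Field K] [CharZero K] [Field F] [CharZero F] [Algebra K F]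
    [FiniteDimensional K F] [IsGalois K F] {ω : K} (hω : ω ^ 2 + ω + 1 = 0) {I : Type} [Fintype I]
    [hI : DecidableEq I] (d : I → K) (x : I → F) (hd : ∀ i, d i ≠ 0) (hx : ∀ i, x i ^ 3 = algebraMap K F (d i))
    (hgen : ∀ S : Subfield F, (∀ k : K, algebraMap K F k ∈ S) → (∀ i, x i ∈ S) → S = ⊤)
    {D : K} (hD : D ≠ 0)
    (hyp : ∀ t : I → ZMod 3, Module.Finite ℤ (ED (D * ∏ i, d i ^ (t i).val)).toAffine.Point) :
    Module.finrank ℤ (ED (algebraMap K F D)).toAffine.Point ≤
      ∑ t : I → ZMod 3, Module.finrank ℤ (ED (D * ∏ i, d i ^ (t i).val)).toAffine.Point := by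
  obtain rfl : hI = fun a b => Classical.propDecidable (a = b) := Subsingleton.elim _ _
  have hx0 : ∀ i, x i ≠ 0 := by
    intro i h
    have h1 := hx i
    rw [h, zero_pow (by norm_num)] at h1
    exact hd i ((map_eq_zero _).1 h1.symm)
  obtain ⟨u, hu⟩ : ∃ u : (I → ZMod 3) → F, ∀ t, u t = ∏ i, x i ^ (t i).val := ⟨_, fun T => rfl⟩
  have hune : ∀ t, u t ≠ 0 := fun t => by
    rw [hu]
    exact Finset.prod_ne_zero_iff.2 fun i _ => pow_ne_zero _ (hx0 i)
  have hu3 : ∀ t, u t ^ 3 = algebraMap K F (∏ i, d i ^ (t i).val) := by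
    intro t
    rw [hu, ← Finset.prod_pow, map_prod]
    refine Finset.prod_congr rfl fun i _ => ?_
    rw [map_pow, ← hx i, ← pow_mul, ← pow_mul, mul_comm]
  set z : F := algebraMap K F ω with hzdef
  have hz : z ^ 2 + z + 1 = 0 := by
    rw [hzdef, ← map_pow, ← map_add, ← map_one (algebraMap K F), ← map_add, hω, map_zero]
  have hz3 := cube_of hz
  have hDF : algebraMap K F D ≠ 0 := (map_ne_zero _).2 hD
  -- the maps
  have S1 : ∀ t, Sc (RingHom.id F) (u t) (ED (algebraMap K F D))
      (ED (algebraMap K F (D * ∏ i, d i ^ (t i).val))) := fun t =>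
    sED _ (hune t) (by rw [RingHom.id_apply, map_mul, hu3])
  have S2 : ∀ t, Sc (RingHom.id F) (u t)⁻¹ (ED (algebraMap K F (D * ∏ i, d i ^ (t i).val)))
      (ED (algebraMap K F D)) := fun t =>
    sED _ (inv_ne_zero (hune t)) (by
      rw [RingHom.id_apply, map_mul, ← hu3, mul_assoc, ← mul_pow, mul_inv_cancel₀ (hune t), one_pow,
        mul_one])
  have Sg : ∀ (b : K) (g : F ≃ₐ[K] F), Sc (g : F →+* F) 1 (ED (algebraMap K F b))
      (ED (algebraMap K F b)) := fun b g =>
    sED _ one_ne_zero (by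
      rw [one_pow, mul_one]
      exact (g.commutes b).symm)
  have Sa : ∀ b : K, Sc (algebraMap K F) 1 (ED b) (ED (algebraMap K F b)) := fun b =>
    sED _ one_ne_zero (by rw [one_pow, mul_one])
  let R : ∀ t : I → ZMod 3, (ED (algebraMap K F D)).toAffine.Point →+
      (ED (algebraMap K F (D * ∏ i, d i ^ (t i).val))).toAffine.Point :=
    fun t => ∑ g : F ≃ₐ[K] F, (tH (Sg _ g)).comp (tH (S1 t))
  have hRap : ∀ t P, R t P = ∑ g : F ≃ₐ[K] F, tH (Sg _ g) (tH (S1 t) P) := by
    intro t P
    show (∑ g : F ≃ₐ[K] F, (tH (Sg _ g)).comp (tH (S1 t))) P = _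
    rw [AddMonoidHom.finsetSum_apply]
    rfl
  have hRinv : ∀ t P (h : F ≃ₐ[K] F), tH (Sg _ h) (R t P) = R t P := by
    intro t P h
    rw [hRap]
    rw [map_sum, ← Equiv.sum_comp (Equiv.mulLeft h)
      (fun g => tH (Sg (D * ∏ i, d i ^ (t i).val) g) (tH (S1 t) P))]
    refine Finset.sum_congr rfl fun g _ => ?_
    exact tH_tH (Sg _ g) (Sg _ h) (Sg _ (h * g)) (fun y => rfl)
      (by rw [map_one, mul_one]) _
  -- descent
  have hdesc : ∀ (b : K) (Q : (ED (algebraMap K F b)).toAffine.Point),
      (∀ g : F ≃ₐ[K] F, tH (Sg b g) Q = Q) → ∃ Q0 : (ED b).toAffine.Point, tH (Sa b) Q0 = Q := by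
    intro b Q hQ
    rcases Q with _ | ⟨X, Y, h⟩
    · exact ⟨0, rfl⟩
    · have h1 : ∀ g : F ≃ₐ[K] F, g X = X ∧ g Y = Y := by
        intro g
        have h2 := hQ g
        obtain ⟨h3, e3⟩ := tH_some (Sg b g) X Y h
        rw [e3, Affine.Point.some.injEq, one_pow, one_pow, mul_one, mul_one] at h2
        exact h2
      obtain ⟨X0, rfl⟩ := (IsGalois.mem_range_algebraMap_iff_fixed (F := K) X).2 fun g => (h1 g).1
      obtain ⟨Y0, rfl⟩ := (IsGalois.mem_range_algebraMap_iff_fixed (F := K) Y).2 fun g => (h1 g).2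
      have hns : (ED b).toAffine.Nonsingular X0 Y0 := by
        have h2 := (Pool.Agent.TH841.NF.ns_iff (Sa b) X0 Y0).1
        apply h2
        rw [one_pow, one_pow, mul_one, mul_one]
        exact h
      refine ⟨.some X0 Y0 hns, ?_⟩
      obtain ⟨h3, e3⟩ := tH_some (Sa b) X0 Y0 hns
      rw [e3, Affine.Point.some.injEq, one_pow, one_pow, mul_one, mul_one]
      exact ⟨rfl, rfl⟩
  -- the base change is injective
  have hinj : ∀ b : K, Function.Injective (tH (Sa b)) := by
    intro b
    rw [injective_iff_map_eq_zero]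
    intro P hP
    rcases P with _ | ⟨X, Y, h⟩
    · rfl
    · exfalso
      obtain ⟨h3, e3⟩ := tH_some (Sa b) X Y h
      rw [e3] at hP
      exact Affine.Point.some_ne_zero _ hP
  -- the sum
  have hsum : ∀ P, ∑ t, tH (S2 t) (R t P) = 3 ^ Fintype.card I • P := by
    intro P
    have h1 : ∀ t, tH (S2 t) (R t P) =
        ∑ g : F ≃ₐ[K] F, tH (S2 t) (tH (Sg _ g) (tH (S1 t) P)) := fun t => by
      rw [hRap]
      exact map_sum _ _ _
    rw [Finset.sum_congr rfl fun t _ => h1 t, Finset.sum_comm, Finset.sum_eq_single 1]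
    · have h2 : ∀ t, tH (S2 t) (tH (Sg _ (1 : F ≃ₐ[K] F)) (tH (S1 t) P)) = P := by
        intro t
        have S3 : Sc (RingHom.id F) (u t) (ED (algebraMap K F D))
          (ED (algebraMap K F (D * ∏ i, d i ^ (t i).val))) := S1 t
        rw [tH_tH (S1 t) (Sg _ 1) S3 (fun y => rfl) (by
          rw [mul_one]
          rfl)]
        have S4 : Sc (RingHom.id F) 1 (ED (algebraMap K F D)) (ED (algebraMap K F D)) :=
          sED _ one_ne_zero (by rw [RingHom.id_apply, one_pow, mul_one])
        rw [tH_tH S3 (S2 t) S4 (fun y => rfl) (by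
          rw [RingHom.id_apply, mul_inv_cancel₀ (hune t)])]
        rcases P with _ | ⟨X, Y, h⟩
        · rfl
        · obtain ⟨h3, e3⟩ := tH_some S4 X Y h
          rw [e3, Affine.Point.some.injEq]
          simp
      rw [Finset.sum_congr rfl fun t _ => h2 t, Finset.sum_const, Finset.card_univ,
        Fintype.card_fun, ZMod.card]
    · intro g _ hg
      have hex : ∀ i, ∃ c : ZMod 3, g (x i) = z ^ c.val * x i := by
        intro i
        apply cube_roots hz
        rw [← map_pow, hx i, AlgEquiv.commutes]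
      choose s hs using hex
      obtain ⟨i0, hi0⟩ : ∃ i, s i ≠ 0 := by
        by_contra hcon
        push Not at hcon
        apply hg
        have h5 := hgen (RingHom.eqLocusField (g : F →+* F) (RingHom.id F))
          (fun y => g.commutes y) (fun i => by
            show g (x i) = x i
            rw [hs i, hcon i, ZMod.val_zero, pow_zero, one_mul])
        ext y
        have h7 : y ∈ RingHom.eqLocusField (g : F →+* F) (RingHom.id F) := by rw [h5]; trivial
        exact h7
      have hgz : g z = z := g.commutes ω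
      have hz0 : z ≠ 0 := by
        intro h
        rw [h] at hz
        norm_num at hz
      have hgu : ∀ t, g (u t) = z ^ (∑ i, s i * t i).val * u t := by
        intro t
        rw [hu, map_prod, pow_sum_val hz3, ← Finset.prod_mul_distrib]
        refine Finset.prod_congr rfl fun i _ => ?_
        rw [map_pow, hs i, mul_pow, pow_mul_val hz3]
      have SS : ∀ c : ZMod 3, Sc (g : F →+* F) (z ^ c.val) (ED (algebraMap K F D))
          (ED (algebraMap K F D)) := fun c =>
        sED _ (pow_ne_zero _ hz0) (by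
          have h1 : (z ^ c.val) ^ 3 = 1 := by rw [← pow_mul, mul_comm, pow_mul, hz3, one_pow]
          rw [h1, mul_one]
          exact (g.commutes D).symm)
      rw [Finset.sum_congr rfl (g := fun t => tH (SS (∑ i, s i * t i)) P) (fun t _ => ?_)]
      · exact twist_sum hDF hz _ s hi0 SS P
      · have S3 : Sc (g : F →+* F) (z ^ (∑ i, s i * t i).val * u t) (ED (algebraMap K F D))
            (ED (algebraMap K F (D * ∏ i, d i ^ (t i).val))) :=
          sED _ (mul_ne_zero (pow_ne_zero _ hz0) (hune t)) (by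
            have h1 : (z ^ (∑ i, s i * t i).val) ^ 3 = 1 := by
              rw [← pow_mul, mul_comm, pow_mul, hz3, one_pow]
            have h2 : (g : F →+* F) (algebraMap K F D) = algebraMap K F D := g.commutes D
            rw [mul_pow, h1, one_mul, hu3, h2, map_mul])
        rw [tH_tH (S1 t) (Sg _ g) S3 (fun y => rfl) (by
          rw [mul_one]
          exact (hgu t).symm)]
        exact tH_tH S3 (S2 t) (SS _) (fun y => rfl) (by
          rw [RingHom.id_apply, mul_assoc, mul_inv_cancel₀ (hune t), mul_one]) P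
    · intro h
      exact absurd (Finset.mem_univ _) h
  -- the maps to the points over `K`
  have hR0 : ∀ t P, ∃ Q0 : (ED (D * ∏ i, d i ^ (t i).val)).toAffine.Point,
      tH (Sa _) Q0 = R t P := fun t P => hdesc _ _ (hRinv t P)
  choose r hr using hR0
  let f : ∀ t : I → ZMod 3, (ED (algebraMap K F D)).toAffine.Point →+
      (ED (D * ∏ i, d i ^ (t i).val)).toAffine.Point := fun t =>
    { toFun := r t
      map_zero' := hinj _ (by rw [hr, map_zero, map_zero])
      map_add' := fun P Q => hinj _ (by rw [hr, map_add, map_add, hr, hr]) }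
  refine finrank_le_sum f fun P hP => ?_
  choose n hn hnP using hP
  refine ⟨(∏ t, n t) * 3 ^ Fintype.card I,
    mul_ne_zero (Finset.prod_ne_zero_iff.2 fun t _ => hn t) (by positivity), ?_⟩
  have h1 : ∀ t, (∏ t, n t) • R t P = 0 := by
    intro t
    obtain ⟨k, hk⟩ := Finset.dvd_prod_of_mem n (Finset.mem_univ t)
    rw [hk, mul_comm (n t) k, mul_smul, ← hr t P, ← map_zsmul, ← map_zsmul]
    have h2 : n t • r t P = 0 := hnP t
    rw [h2, smul_zero, map_zero]
  rw [mul_smul]
  have h2 : ((3 : ℤ) ^ Fintype.card I) • P = 3 ^ Fintype.card I • P := by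
    rw [← natCast_zsmul]
    push_cast
    rfl
  rw [h2, ← hsum P, Finset.smul_sum]
  refine Finset.sum_eq_zero fun t _ => ?_
  rw [← map_zsmul, h1 t, map_zero]

end Pool.Agent.U854.TW
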