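import Pool.Agent.U854.TW.A
import Pool.Agent.U854.TW.B
import Pool.Agent.Q283.T3.Wk
import Pool.Agent.Y696.XL.Up

/-!
# Fixed towers: the curves over `F = K(∛d₁, …, ∛dₙ)` and the joint law of the twists
-/

set_option autoImplicit false
set_option linter.unusedSectionVars false
set_option linter.unusedVariables false

open scoped Classical

namespace Pool.Agent.U854.TW

open NumberField WeierstrassCurve Filter IsDedekindDomain Module
open Pool.Agent.Y692.QS (Ei w nr toC)
open Pool.Agent.Y715.T.Gi Pool.Agent.Y715.T.Nr Pool.Agent.Y715.T.Df Pool.Agent.Y715.T.Ell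
open Pool.Agent.Y703.CT (Dt pD Ker ClsE)
open Pool.Agent.Y155.CT (a_mul a_cont AG AG_fg)
open Pool.Agent.TH841.SH.D (Gal Coch)
open Pool.Agent.TH841.NF.D (Sha)
open Pool.Agent.XL6 (SelK)
open Pool.Agent.Y350.CTK.Mw (act_act act_inj)
open Pool.Agent.Y696.CTK (ED Tri Parts parts ClsK TrfData)
open Pool.Agent.Y699.E (prm prm_ne_zero)
open Pool.Agent.R432.V (io ef)
open Pool.Agent.Y703.XL (cr)

section
variable {K : Type} [Field K] [NumberField K] {j : Ei ≃+* 𝓞 K} {D : Ei}
  {e : AlgebraicClosure K ≃+* QB} {i₀ : QB} {hi : i₀ ^ 2 + i₀ + 1 = 0} {u : QB}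
  {a : GK i₀ → ZMod 3}
  {Ψ : Pool.Agent.TH841.SH.D.Pt (ED (j D : K)) (AlgebraicClosure K) ≃+ Pt QB}
  {g : Pool.Agent.TH841.SH.D.Gal K ≃* GK i₀}

/-- the group of points is finitely generated (helper419) -/
theorem fg_K (hD : D ≠ 0) (hTr : TrfData K j D e i₀ hi u a Ψ g) :
    Module.Finite ℤ (ED (j D : K)).toAffine.Point := by
  obtain ⟨hTw, he, hgc, hgsc, hge, hΨ, hact⟩ := hTr
  have hfg := AG_fg (hi := hi) (a_mul hD hTw) (a_cont hD hTw)
  let φ : K →ₐ[K] AlgebraicClosure K := Algebra.ofId K (AlgebraicClosure K)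
  let em : Pool.Agent.TH841.SH.D.Pt (ED (j D : K)) K →+ Pt QB :=
    Ψ.toAddMonoidHom.comp (Pool.Agent.TH841.SH.D.act (ED (j D : K)) φ)
  have hinj : Function.Injective em := Ψ.injective.comp (act_inj _ φ)
  have hfix : ∀ (P : Pool.Agent.TH841.SH.D.Pt (ED (j D : K)) K) (σ : GK i₀),
      Pool.Agent.Y703.CT.act hi a σ (em P) = em P := by
    intro P σ
    have h1 := hact (g.symm σ) (Pool.Agent.TH841.SH.D.act (ED (j D : K)) φ P)
    rw [g.apply_symm_apply] at h1
    refine h1.symm.trans ?_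
    rw [act_act]
    have h2 : ((g.symm σ).toAlgHom).comp φ = φ := by
      refine AlgHom.ext fun x => ?_
      exact (g.symm σ).commutes x
    rw [h2]
    rfl
  let em' : Pool.Agent.TH841.SH.D.Pt (ED (j D : K)) K →+ AG hi a :=
    { toFun := fun P => ⟨em P, fun σ => hfix P σ⟩
      map_zero' := Subtype.ext (map_zero em)
      map_add' := fun P Q => Subtype.ext (map_add em P Q) }
  have h1 : Module.Finite ℤ (Pool.Agent.TH841.SH.D.Pt (ED (j D : K)) K) :=
    Module.Finite.of_injective em'.toIntLinearMap fun P Q h => hinj (congrArg Subtype.val h)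
  exact h1

end

section cong
variable {R : Type} [CommRing R]

lemma dvd_mul_one {a x y : R} (hx : a ∣ x - 1) (hy : a ∣ y - 1) : a ∣ x * y - 1 := by
  have : x * y - 1 = (x - 1) * y + (y - 1) := by ring
  rw [this]
  exact dvd_add (hx.mul_right _) hy

lemma dvd_pow_one {a x : R} (hx : a ∣ x - 1) (n : ℕ) : a ∣ x ^ n - 1 := by
  induction n with
  | zero => simp
  | succ n ih => rw [pow_succ]; exact dvd_mul_one ih hx

lemma dvd_prod_one {ι : Type} {a : R} (s : Finset ι) {f : ι → R} (h : ∀ i ∈ s, a ∣ f i - 1) :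
    a ∣ ∏ i ∈ s, f i - 1 := by
  induction s using Finset.induction_on with
  | empty => simp
  | insert b s hb ih =>
    rw [Finset.prod_insert hb]
    exact dvd_mul_one (h b (Finset.mem_insert_self _ _))
      (ih fun i hi => h i (Finset.mem_insert_of_mem hi))

end cong

variable {K : Type} [Field K] [NumberField K]

/-- elements `1` modulo `3` of norm `1` modulo `9`, independent modulo cubes -/
structure Family {n : ℕ} (d : Fin n → 𝓞 K) : Prop where
  three : ∀ i, (3 : 𝓞 K) ∣ d i - 1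
  nine : ∀ i, (9 : ℤ) ∣ Algebra.norm ℤ (d i) - 1
  ind : ∀ a : Fin n → ℕ, (∃ x : 𝓞 K, x ^ 3 = ∏ i, d i ^ a i) → ∀ i, 3 ∣ a i

/-- the twisting element -/
noncomputable def mt {n : ℕ} (d : Fin n → 𝓞 K) (t : Fin n → ZMod 3) : 𝓞 K := ∏ i, d i ^ (t i).val

section fam
variable {n : ℕ} {d : Fin n → 𝓞 K} (hd : Family d)
include hd

theorem mt_three (t : Fin n → ZMod 3) : (3 : 𝓞 K) ∣ mt d t - 1 :=
  dvd_prod_one _ fun i _ => dvd_pow_one (hd.three i) _

theorem mt_nine (t : Fin n → ZMod 3) : (9 : ℤ) ∣ Algebra.norm ℤ (mt d t) - 1 := by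
  unfold mt
  rw [map_prod]
  refine dvd_prod_one _ fun i _ => ?_
  rw [map_pow]
  exact dvd_pow_one (hd.nine i) _

theorem d_ne (i : Fin n) : d i ≠ 0 := by
  intro h
  have h1 := hd.nine i
  rw [h, Algebra.norm_zero] at h1
  norm_num at h1

theorem mt_cube {s t : Fin n → ZMod 3} (h : ∃ x : 𝓞 K, x ^ 3 = mt d s * mt d t ^ 2) : s = t := by
  obtain ⟨x, hx⟩ := h
  have h1 := hd.ind (fun i => (s i).val + 2 * (t i).val) ⟨x, by
    rw [hx]
    unfold mt
    rw [← Finset.prod_pow, ← Finset.prod_mul_distrib]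
    refine Finset.prod_congr rfl fun i _ => ?_
    rw [pow_add, ← pow_mul, mul_comm 2]⟩
  funext i
  have h2 := h1 i
  generalize s i = a at h2 ⊢
  generalize t i = b at h2 ⊢
  revert a b
  decide

end fam

theorem indep {n : ℕ} {d : Fin n → 𝓞 K} (hd : Family d) (a : Fin n → ZMod 3) (ha : ∃ i, a i ≠ 0) :
    ¬ ∃ z : K, z ^ 3 = ∏ i, (d i : K) ^ (a i).val := by
  rintro ⟨z, hz⟩
  have hz' : z ^ 3 = algebraMap (𝓞 K) K (∏ i, (d i) ^ (a i).val) := by
    rw [hz, map_prod]
    refine Finset.prod_congr rfl fun i _ => ?_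
    rw [map_pow]
  have hint : IsIntegral (𝓞 K) z := by
    refine IsIntegral.of_pow (n := 3) (by norm_num) ?_
    rw [hz']
    exact isIntegral_algebraMap
  obtain ⟨c, hc⟩ := IsIntegrallyClosed.algebraMap_eq_of_integral hint
  have h3 : c ^ 3 = ∏ i, (d i) ^ (a i).val := by
    apply FaithfulSMul.algebraMap_injective (𝓞 K) K
    rw [map_pow, hc, hz']
  obtain ⟨i, hi⟩ := ha
  have h4 := hd.ind (fun i => (a i).val) ⟨c, h3⟩ i
  apply hi
  generalize a i = b at h4
  revert b
  decide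

/-- **One `D`.** -/
theorem perF (K : Type) [Field K] [NumberField K] [IsCyclotomicExtension {3} ℚ K] {n : ℕ}
    {d : Fin n → 𝓞 K} (hd : Family d) {D : 𝓞 K} (hD : ClsK D) :
    ∃ r : (Fin n → ZMod 3) → ℕ,
      (∀ t, (SelK ((D * mt d t : 𝓞 K) : K)).ncard = 3 ^ (r t + 1) ∧
        finrank ℤ (ED ((D * mt d t : 𝓞 K) : K)).toAffine.Point ≤ 2 * r t ∧
        (r t = 0 ↔ Tri (D * mt d t))) ∧
      ∀ (F : Type) [Field F] [NumberField F] [Algebra K F] (x : Fin n → F),
        (∀ i, x i ^ 3 = algebraMap K F (d i : K)) →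
        (∀ L : Subfield F, (∀ k : K, algebraMap K F k ∈ L) → (∀ i, x i ∈ L) → L = ⊤) →
        finrank K F = 3 ^ n ∧
        finrank ℤ (ED (algebraMap K F (D : K))).toAffine.Point ≤ 2 * ∑ t, r t ∧
        ((∀ t, r t = 0) →
          (∃ L : ℂ → ℂ, Differentiable ℂ L ∧ L 1 ≠ 0 ∧ ∀ s : ℂ, 3 / 2 < s.re →
            HasProd (fun v : {v : HeightOneSpectrum (𝓞 F) |
              algebraMap (𝓞 K) (𝓞 F) (3 * D * ∏ i, d i) ∉ v.asIdeal} =>
                ef (algebraMap (𝓞 K) (𝓞 F) D) s v.1) (L s)) ∧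
          Finite (ED (algebraMap K F (D : K))).toAffine.Point ∧
          ∀ (k : ℕ) (y : Sha (ED (algebraMap K F (D : K)))), 3 ^ k • y = 0 → 3 ^ n • y = 0) := by
  have h1 := fun t => Q283.T3B.one_D hD (mt_three hd t) (mt_nine hd t)
  choose r hr using h1
  refine ⟨r, hr, ?_⟩
  intro F _ _ _ x hx hgen
  obtain ⟨⟨j, hj⟩, -⟩ := Pool.Agent.Y455.CTK.jex K
  have hω := Pool.Agent.R432.C.om_K j
  obtain ⟨z, rfl⟩ := j.surjective D
  have hz : ClsE z := (Pool.Agent.Y696.XK.cls_iff j hj z).1 hD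
  have hz0 : z ≠ 0 := prm_ne_zero hz.1
  obtain ⟨hfd, hgal⟩ := Pool.Agent.R432.C.gal3 (F := F) hω (I := Fin n) (fun i => (d i : K)) x hx hgen
  have hd0 : ∀ i, (d i : K) ≠ 0 := fun i h => d_ne hd i (by exact_mod_cast h)
  have hD0 : ((j z : 𝓞 K) : K) ≠ 0 := by
    intro h
    have h1 : (j z : 𝓞 K) = 0 := by exact_mod_cast h
    exact hz0 ((map_eq_zero_iff j j.injective).1 h1)
  have hdeg : finrank K F = 3 ^ n := by
    have h1 := Pool.Agent.R432.C.kummer3_card (K := F) hω three_ne_zero x (fun i => (d i : K)) hd0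
      hx (indep hd) (fun σ hσ => by
        have h5 := hgen (RingHom.eqLocusField (σ : F →+* F) (RingHom.id F))
          (fun y => σ.commutes y) hσ
        ext y
        have h7 : y ∈ RingHom.eqLocusField (σ : F →+* F) (RingHom.id F) := by rw [h5]; trivial
        exact h7)
    rw [Fintype.card_fin] at h1
    rw [← h1]
    exact (IsGalois.card_aut_eq_finrank K F).symm
  have hcoe : ∀ t, ((j z * mt d t : 𝓞 K) : K) = ((j z : 𝓞 K) : K) * ∏ i, (d i : K) ^ (t i).val := by
    intro t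
    unfold mt
    push_cast
    rfl
  refine ⟨hdeg, ?_, fun h0 => ?_⟩
  · have hfg : ∀ t : Fin n → ZMod 3, Module.Finite ℤ
        (Pool.Agent.R432.C.ED (((j z : 𝓞 K) : K) * ∏ i, (d i : K) ^ (t i).val)).toAffine.Point := by
      intro t
      obtain ⟨m', hm'⟩ := j.surjective (mt d t)
      have hm0 : m' ≠ 0 := by
        rintro rfl
        have h3 := mt_nine hd t
        rw [← hm', map_zero, Algebra.norm_zero] at h3
        norm_num at h3
      obtain ⟨e', i₀, hi, u, a, Ψ, g, hdata⟩ := Parts.trf parts K j _ (mul_ne_zero hz0 hm0)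
      have h3 := fg_K (mul_ne_zero hz0 hm0) hdata
      rw [map_mul, hm'] at h3
      rw [← hcoe]
      exact h3
    have h4 := rank_F hω (fun i => (d i : K)) x hd0 hx hgen hD0 hfg
    refine h4.trans ?_
    rw [Finset.mul_sum]
    have h5 : ∀ t : Fin n → ZMod 3, Module.finrank ℤ
        (Pool.Agent.R432.C.ED (((j z : 𝓞 K) : K) * ∏ i, (d i : K) ^ (t i).val)).toAffine.Point ≤
          2 * r t := by
      intro t
      have h3 := (hr t).2.1
      rw [hcoe] at h3
      exact h3
    have h6 := Finset.sum_le_sum (s := (Finset.univ : Finset (Fin n → ZMod 3))) fun t _ => h5 t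
    exact h6
  · have htri : ∀ t, Tri (j z * mt d t) := fun t => (hr t).2.2.1 (h0 t)
    refine ⟨?_, ?_, ?_⟩
    · choose δ hδ using fun i => j.surjective (d i)
      have hδ0 : ∀ i, δ i ≠ 0 := fun i h => d_ne hd i (by rw [← hδ, h, map_zero])
      have hmj : ∀ t : Fin n → ZMod 3, mt d t = j (∏ i, δ i ^ (t i).val) := by
        intro t
        unfold mt
        rw [map_prod]
        refine Finset.prod_congr rfl fun i _ => ?_
        rw [map_pow, hδ]
      have hdat : ∀ t : Fin n → ZMod 3, ∃ (J : Type) (_ : Fintype J) (_ : Nonempty J)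
          (π : J → Ei) (e : J → ZMod 3) (x : Ei), Dt π e ∧ Ker π e ∧
            ¬ (9 : ℤ) ∣ nr (pD π e) - 1 ∧ x ≠ 0 ∧
            z * ∏ i, δ i ^ (t i).val = x ^ 3 * pD π e := by
        intro t
        refine data_of j hz ?_ ?_ ?_
        · have h3 := mt_three hd t
          rw [hmj] at h3
          have e1 : j (∏ i, δ i ^ (t i).val) - 1 = j (∏ i, δ i ^ (t i).val - 1) := by
            rw [map_sub, map_one]
          rw [e1, ← map_ofNat j 3, map_dvd_iff j] at h3
          exact h3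
        · have h3 := mt_nine hd t
          rw [hmj, hj] at h3
          exact h3
        · rw [map_mul, ← hmj]
          exact htri t
      obtain ⟨L, h3, h4, h5⟩ := eulG j hz0 hδ0 hdat (F := F) x (fun i => by rw [hδ]; exact hx i) hgen
        (by rw [hdeg, Fintype.card_fin])
      refine ⟨L, h3, h4, fun s hs => ?_⟩
      have e1 : algebraMap (𝓞 K) (𝓞 F) (3 * j z * ∏ i, d i) = io F j (3 * z * ∏ i, δ i) := by
        rw [Pool.Agent.R432.V.io_apply, map_mul j, map_mul j, map_ofNat, map_prod j]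
        simp only [hδ]
      rw [e1]
      exact h5 s hs
    · exact Pool.Agent.R432.C.pts hω (fun i => (d i : K)) x hd0 hx hgen hD0 fun t => by
        have h3 := (htri t).1
        rw [hcoe] at h3
        exact h3
    · intro k y hy
      have h1 := Pool.Agent.R432.C.cubic hω (fun i => (d i : K)) x hd0 hx hgen hD0
        (fun t => by
          have h3 := (htri t).2
          rw [hcoe] at h3
          exact h3) k y hy
      rw [Fintype.card_fin] at h1
      exact h1

end Pool.Agent.U854.TW
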