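import Pool.Agent.R432.V5
import Pool.Agent.Q283.T3.Trn2

/-!
# The `L`-function of `y² + D y = x³` over `K(∛d₁, …, ∛dₙ)`, for general `dᵢ`
-/

set_option autoImplicit false
set_option linter.unusedSectionVars false

open NumberField IsDedekindDomain Filter Complex
open scoped Topology Classical

namespace Pool.Agent.U854.TW

open Pool.Agent.Y692.QS hiding chi
open Pool.Agent.Y715.T.Rec (cs nn)
open Pool.Agent.Y715.T.RecG (Pq cs_spec)
open Pool.Agent.Y703.CT (IsHL chD Dt pD Ker ClsE)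
open Pool.Agent.Y696.CT (gg chD_prime cs_mul')
open Pool.Agent.Y696.CTK (ED Tri Parts parts)
open Pool.Agent.Y699.E (prm prm_ne_zero PD mem_PD PS)
open Pool.Agent.R432.C
open Pool.Agent.R432.V

variable {K : Type} [Field K] [NumberField K] (j : Ei ≃+* 𝓞 K)

/-- the cube-free part, and the kernel, of a product -/
theorem data_of {D m : Ei} (hD : ClsE D) (hm : prm m) (h9 : (9 : ℤ) ∣ nr m - 1)
    (hT : Tri (j (D * m))) :
    ∃ (J : Type) (_ : Fintype J) (_ : Nonempty J) (π : J → Ei) (e : J → ZMod 3) (x : Ei),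
      Dt π e ∧ Ker π e ∧ ¬ (9 : ℤ) ∣ nr (pD π e) - 1 ∧ x ≠ 0 ∧ D * m = x ^ 3 * pD π e := by
  have hPS : PS D := ⟨hD.1, hD.2.1⟩
  obtain ⟨-, -, -, h4⟩ := Q283.T3B.main_D parts j hD hm h9 (Finset.Subset.refl (PD m))
    fun π hπ => ((mem_PD (prm_ne_zero hm)).1 hπ).1
  have hW : ∀ π ∈ PD m, Pq π := fun π hπ => ((mem_PD (prm_ne_zero hm)).1 hπ).1
  obtain ⟨x, hx, hDm⟩ := Q283.T3B.dec hPS hm (Finset.Subset.refl (PD m)) hW
  obtain ⟨T, hTT⟩ : ∃ T, T = PD D ∪ PD m := ⟨_, rfl⟩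
  obtain ⟨e, he⟩ : ∃ e, e = Q283.T3.ex (Q283.T3B.mu m) (PD D) := ⟨_, rfl⟩
  rw [← hTT, ← he] at hDm h4
  have hTq : ∀ π ∈ T, Pq π := fun π hπ => by
    rw [hTT] at hπ
    exact (Finset.mem_union.1 hπ).elim (fun h => ((mem_PD hPS.ne).1 h).1) (hW π)
  have hdt := Q283.T3B.dt_of (e := e) hTq
  rw [← Q283.T3B.pD_eq (T := T) (e := e)] at hDm
  obtain ⟨E, hE⟩ : ∃ E, E = pD (fun t : Q283.T3B.JT T e => (t.1.1 : Ei)) (fun t => e t.1) :=
    ⟨_, rfl⟩
  have hE9 : ¬ (9 : ℤ) ∣ nr E - 1 := by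
    rw [← hE] at hDm
    intro h
    apply hD.2.2
    have h1 := congrArg nr hDm
    have e1 : ∀ a b : Ei, nr (a * b) = nr a * nr b := fun a b => Pool.Agent.Y692.QS.nr_mul a b
    have e2 : nr (x ^ 3) = nr x ^ 3 := by
      rw [pow_succ, pow_two, e1, e1]; ring
    rw [e1, e1, e2] at h1
    obtain ⟨a, ha⟩ := Q283.T3B.nr_prm hx
    obtain ⟨b, hb⟩ := h9
    obtain ⟨c, hc⟩ := h
    have hx1 : nr x = 1 + 3 * a := by linarith
    have hb1 : nr m = 1 + 9 * b := by linarith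
    have hc1 : nr E = 1 + 9 * c := by linarith
    rw [hx1, hb1, hc1] at h1
    refine ⟨(a + 3 * a ^ 2 + 3 * a ^ 3) * (1 + 9 * c) + c - nr D * b, ?_⟩
    linear_combination h1
  have hJ : Nonempty (Q283.T3B.JT T e) := by
    by_contra hn
    rw [not_nonempty_iff] at hn
    apply hE9
    rw [hE]
    unfold pD
    rw [Finset.univ_eq_empty, Finset.prod_empty, Pool.Agent.Y692.QS.nr_one, sub_self]
    exact dvd_zero _
  have hk : Ker (fun t : Q283.T3B.JT T e => (t.1.1 : Ei)) (fun t => e t.1) := by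
    rw [← Q283.T3B.kerV_three, Q283.T3B.card_ker, h4.2 hT, pow_one]
  refine ⟨Q283.T3B.JT T e, inferInstance, hJ, _, _, x, hdt, hk, ?_, prm_ne_zero hx, hDm⟩
  rw [← hE]
  exact hE9

/-- one factor of the Hecke `L`-function of a twist -/
theorem gg_gen {J : Type} [Fintype J] {π : J → Ei} {e : J → ZMod 3} (hDt : Dt π e)
    {I : Type} [Fintype I] {d : I → Ei} (t : I → ZMod 3) {D x α : Ei}
    (h : D * ∏ i, d i ^ (t i).val = x ^ 3 * pD π e)
    (hα : Pq α) (h1 : ¬ α ∣ D) (h2 : ∀ i, ¬ α ∣ d i) (s : ℂ) :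
    gg π (fun i => -e i) s α =
      (toC (w ^ (-cs α D).val * α) * ((nr α : ℤ) : ℂ) ^ (-s)) *
        toC w ^ (∑ i, (-cs α (d i)) * t i).val := by
  have hpr : ¬ α ∣ ∏ i, d i ^ (t i).val := by
    intro h
    obtain ⟨i, -, hi⟩ := (hα.prime.dvd_finsetProd_iff _).1 h
    exact h2 i (hα.prime.dvd_of_dvd_pow hi)
  have hnm : ¬ α ∣ D * ∏ i, d i ^ (t i).val := by
    intro h
    rcases hα.prime.dvd_or_dvd h with h | h
    · exact h1 h
    · exact hpr h
  have hnd : ¬ α ∣ pD π e := fun h5 => hnm (by rw [h]; exact h5.mul_left _)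
  have hnx : ¬ α ∣ x := fun h5 => hnm (by rw [h]; exact (h5.trans (dvd_pow_self x (by norm_num))).mul_right _)
  have hnx3 : ¬ α ∣ x ^ 3 := fun h5 => hnx (hα.prime.dvd_of_dvd_pow h5)
  have h3 := chD_prime Pool.Agent.Y350.CT.rec hDt (Or.inl rfl) hα hnd
  have h4 : cs α (pD π e) = cs α D + ∑ i, cs α (d i) * t i := by
    have e1 : cs α (D * ∏ i, d i ^ (t i).val) = cs α (x ^ 3 * pD π e) := by rw [h]
    rw [cs_mul' hα h1 hpr, cs_mul' hα hnx3 hnd,
      Pool.Agent.Y715.T.RecG.cs_pow hα.prime hα.norm hnx] at e1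
    have e2 : ((3 : ℕ) : ZMod 3) = 0 := by decide
    rw [e2, zero_mul, zero_add] at e1
    rw [← e1]
    congr 1
    rw [Pool.Agent.Y715.T.RecG.cs_prod hα.prime hα.norm _ _
      fun i _ h5 => h2 i (hα.prime.dvd_of_dvd_pow h5)]
    refine Finset.sum_congr rfl fun i _ => ?_
    rw [Pool.Agent.Y715.T.RecG.cs_pow hα.prime hα.norm (h2 i), ZMod.natCast_zmod_val, mul_comm]
  unfold gg
  rw [h3, h4, neg_add]
  have hz3 : toC w ^ 3 = 1 := by rw [← map_pow, w_cube, map_one]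
  have h5 : -(∑ i, cs α (d i) * t i) = ∑ i, (-cs α (d i)) * t i := by
    rw [← Finset.sum_neg_distrib]
    exact Finset.sum_congr rfl fun i _ => (neg_mul _ _).symm
  rw [h5, pow_add_val hz3, map_mul, map_pow]
  ring

/-- **The `L`-function of `E_D` over `F = K(∛dᵢ)`** is entire and not zero at `1`, if all the twists
have trivial descent. -/
theorem eulG {D : Ei} (hD0 : D ≠ 0) {I : Type} [Fintype I] {d : I → Ei} (hd0 : ∀ i, d i ≠ 0)
    (hdat : ∀ t : I → ZMod 3, ∃ (J : Type) (_ : Fintype J) (_ : Nonempty J) (π : J → Ei)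
      (e : J → ZMod 3) (x : Ei), Dt π e ∧ Ker π e ∧ ¬ (9 : ℤ) ∣ nr (pD π e) - 1 ∧ x ≠ 0 ∧
        D * ∏ i, d i ^ (t i).val = x ^ 3 * pD π e)
    {F : Type} [Field F] [NumberField F] [Algebra K F] (x : I → F)
    (hx : ∀ i, x i ^ 3 = algebraMap K F ((j (d i) : 𝓞 K) : K))
    (hgen : ∀ L : Subfield F, (∀ k : K, algebraMap K F k ∈ L) → (∀ i, x i ∈ L) → L = ⊤)
    (hdeg : Module.finrank K F = 3 ^ Fintype.card I) :
    ∃ L : ℂ → ℂ, Differentiable ℂ L ∧ L 1 ≠ 0 ∧ ∀ s : ℂ, 3 / 2 < s.re →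
      HasProd (fun v : {v : HeightOneSpectrum (𝓞 F) |
        io F j (3 * D * ∏ i, d i) ∉ v.asIdeal} => ef (io F j D) s v.1) (L s) := by
  have hω := om_K j
  obtain ⟨hfd, hgal⟩ := gal3 (F := F) hω (I := I) (fun i => ((j (d i) : 𝓞 K) : K)) x hx hgen
  -- the cube roots as integers
  have hint : ∀ i, IsIntegral ℤ (x i) := by
    intro i
    refine IsIntegral.of_pow (n := 3) (by norm_num) ?_
    rw [hx i]
    exact (j (d i)).2.map ((algebraMap K F).toIntAlgHom)
  set x' : I → 𝓞 F := fun i => ⟨x i, hint i⟩ with hx'd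
  have hx' : ∀ i, x' i ^ 3 = io F j (d i) := by
    intro i
    apply RingOfIntegers.ext
    rw [io_coe, ← hx i]
    rfl
  have hgen' : ∀ L : Subfield F, (∀ k : K, algebraMap K F k ∈ L) → (∀ i, (x' i : F) ∈ L) → L = ⊤ :=
    fun L h1 h2 => hgen L h1 fun i => h2 i
  set M : Ei := 3 * D * ∏ i, d i with hM
  have hM0 : M ≠ 0 := mul_ne_zero (mul_ne_zero (by decide) hD0)
    (Finset.prod_ne_zero_iff.2 fun i _ => hd0 i)
  have hMp : ∀ α : Ei, Pq α → ¬ α ∣ M → ¬ α ∣ D ∧ ∀ i, ¬ α ∣ d i := by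
    intro α _ hα
    refine ⟨fun h => hα ((h.mul_left 3).mul_right _), fun i h => hα ?_⟩
    exact (h.trans (Finset.dvd_prod_of_mem _ (Finset.mem_univ i))).mul_left _
  have hφ : Function.Injective (io F j) := io_inj j
  choose J iJ nJ π e y hDt hk h9 hy0 hy using hdat
  -- the functions of the twists
  have hA := fun t : I → ZMod 3 => Pool.Agent.Y696.CTE.val_ne (hDt t) (hk t) (h9 t)
  choose L0 hL01 hL02 using hA
  choose L hL1 hL2 hL3 using fun t : I → ZMod 3 => gm (hDt t).pq (hL01 t) (hL02 t) hM0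
  refine ⟨fun s => ∏ t : I → ZMod 3,
    (L t s * (starRingEnd ℂ) (L t ((starRingEnd ℂ) s))), ?_, ?_, fun s hs => ?_⟩
  · refine Differentiable.fun_finsetProd fun t _ => (hL1 t).mul ?_
    intro s
    have h1 := (hL1 t ((starRingEnd ℂ) s)).conj_conj
    rw [Complex.conj_conj] at h1
    exact h1
  · refine Finset.prod_ne_zero_iff.2 fun t _ => mul_ne_zero (hL2 t) ?_
    rw [map_one]
    exact (map_ne_zero _).2 (hL2 t)
  · have hsc : 3 / 2 < ((starRingEnd ℂ) s).re := by rwa [Complex.conj_re]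
    set U : Set (HeightOneSpectrum (𝓞 F)) := {v | io F j M ∉ v.asIdeal} with hU
    -- the prime below
    have hex : ∀ v : U, ∃ α : {α : Ei // Pq α ∧ ¬ α ∣ M}, io F j α.1 ∈ v.1.asIdeal := by
      intro v
      have h3 : (3 : 𝓞 F) ∉ v.1.asIdeal := by
        intro h
        apply v.2
        rw [hM, map_mul, map_mul, map_ofNat, mul_assoc]
        exact Ideal.mul_mem_right _ _ h
      obtain ⟨α, h4, h5⟩ := below hφ h3
      refine ⟨⟨α, h4, fun h6 => v.2 ?_⟩, h5⟩
      exact (mem_iff (io F j) h4 h5 M).2 h6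
    choose β hβ using hex
    have hβu : ∀ (v : U) (b : {α : Ei // Pq α ∧ ¬ α ∣ M}), io F j b.1 ∈ v.1.asIdeal → β v = b := by
      intro v b hb
      apply Subtype.ext
      exact pq_dvd (β v).2.1 b.2.1 ((mem_iff (io F j) (β v).2.1 (hβ v) b.1).1 hb)
    have hsp := fun b : {α : Ei // Pq α ∧ ¬ α ∣ M} =>
      splitV (F := F) j d x' hx' hgen' b.2.1 (fun i => (hMp _ b.2.1 b.2.2).2 i)
    have htr : ∀ (b : {α : Ei // Pq α ∧ ¬ α ∣ M}) (v : HeightOneSpectrum (𝓞 F)),
        io F j b.1 ∈ v.asIdeal → Tr (io F j D) v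
          (toC (w ^ (-cs b.1 D).val * b.1) ^ fo d b.1) :=
      fun b v hv => tr_at (io F j) b.2.1 hv (hMp _ b.2.1 b.2.2).1 ((hsp b).1 v hv)
    set h : {α : Ei // Pq α ∧ ¬ α ∣ M} → ℂ := fun b => ∏ t : I → ZMod 3,
      ((1 - gg (π t) (fun i => -e t i) s b.1)⁻¹ *
        (starRingEnd ℂ) ((1 - gg (π t) (fun i => -e t i) ((starRingEnd ℂ) s) b.1)⁻¹)) with hh
    refine eul_abs (fun v hv => ⟨_, htr (β ⟨v, hv⟩) v (hβ ⟨v, hv⟩)⟩) hs β (h := h) ?_ ?_
    · intro b
      set f := fo d b.1 with hf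
      obtain ⟨hs1, hs2⟩ := hsp b
      rw [← hf, hdeg] at hs2
      have hf0 : 0 < f := by
        rw [hf]
        unfold fo
        split_ifs <;> norm_num
      -- the fibre
      let E : {v : U // β v = b} ≃ {v : HeightOneSpectrum (𝓞 F) // io F j b.1 ∈ v.asIdeal} :=
        { toFun := fun v => ⟨v.1.1, by have h1 := hβ v.1; rwa [v.2] at h1⟩
          invFun := fun v => ⟨⟨v.1, fun h1 => b.2.2 ((mem_iff (io F j) b.2.1 v.2 M).1 h1)⟩,
            hβu _ _ v.2⟩
          left_inv := fun v => rfl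
          right_inv := fun v => rfl }
      have hfin : Finite {v : HeightOneSpectrum (𝓞 F) // io F j b.1 ∈ v.asIdeal} := by
        refine Nat.finite_of_card_ne_zero fun h0 => ?_
        rw [h0, zero_mul] at hs2
        exact absurd hs2.symm (by positivity)
      have hfin' : Finite {v : U // β v = b} := Finite.of_equiv _ E.symm
      let _ : Fintype {v : U // β v = b} := Fintype.ofFinite _
      have hN : Fintype.card {v : U // β v = b} = 3 ^ Fintype.card I / f := by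
        rw [← Nat.card_eq_fintype_card, Nat.card_congr E, ← hs2, Nat.mul_div_cancel _ hf0]
      have hn0 : ((nr b.1 : ℤ) : ℂ) ≠ 0 := by
        have h1 : nr b.1 ≠ 0 := fun h => b.2.1.prime.ne_zero (nr_zero_iff.1 h)
        exact_mod_cast h1
      have hnn : (((nr b.1).natAbs : ℕ) : ℂ) = ((nr b.1 : ℤ) : ℂ) := by
        have h5 := Int.natAbs_of_nonneg (nr_nonneg b.1)
        have h6 : (((nr b.1).natAbs : ℤ) : ℂ) = ((nr b.1 : ℤ) : ℂ) := by rw [h5]
        exact (Int.cast_natCast _).symm.trans h6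
      set X : ℂ := toC (w ^ (-cs b.1 D).val * b.1) with hX
      set Q : ℂ := ((nr b.1 : ℤ) : ℂ) ^ (-s) with hQ
      have hconst : ∀ v : {v : U // β v = b}, ef (io F j D) s v.1.1 =
          ((1 - (X * Q) ^ f) * (1 - ((starRingEnd ℂ) X * Q) ^ f))⁻¹ := by
        intro v
        have hv : io F j b.1 ∈ v.1.1.asIdeal := by have h1 := hβ v.1; rwa [v.2] at h1
        rw [ef_eq (htr b v.1.1 hv)]
        have hq : (qv v.1.1 : ℂ) ^ (-s) = Q ^ f := by
          unfold qv
          rw [hs1 v.1.1 hv, ← hf, Nat.cast_pow, npow, hnn, hQ]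
        rw [hq, map_pow, mul_pow, mul_pow]
      have hval : h b = ∏ _v : {v : U // β v = b},
          ((1 - (X * Q) ^ f) * (1 - ((starRingEnd ℂ) X * Q) ^ f))⁻¹ := by
        rw [Finset.prod_const, Finset.card_univ, hN, inv_pow, mul_pow, hh]
        simp only
        have hz : toC w ^ 2 + toC w + 1 = 0 := by
          have h1 : (w : Ei) ^ 2 + w + 1 = 0 := by decide
          rw [← map_pow, ← map_add, ← map_one toC, ← map_add, h1, map_zero]
        have hzc : ((starRingEnd ℂ) (toC w)) ^ 2 + (starRingEnd ℂ) (toC w) + 1 = 0 := by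
          rw [← map_pow, ← map_add, ← map_one (starRingEnd ℂ), ← map_add, hz, map_zero]
        have hc1 : (∀ i, -cs b.1 (d i) = 0) → f = 1 := by
          intro h1
          rw [hf]
          unfold fo
          rw [if_pos fun i => neg_eq_zero.1 (h1 i)]
        have hc3 : ¬ (∀ i, -cs b.1 (d i) = 0) → f = 3 := by
          intro h1
          rw [hf]
          unfold fo
          rw [if_neg fun h2 => h1 fun i => neg_eq_zero.2 (h2 i)]
        rw [Finset.prod_mul_distrib, Finset.prod_inv_distrib, mul_inv]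
        obtain ⟨g1, g2⟩ := hMp _ b.2.1 b.2.2
        congr 1
        · congr 1
          rw [← loc (fun i => -cs b.1 (d i)) hz (X * Q) hc1 hc3]
          refine Finset.prod_congr rfl fun t _ => ?_
          rw [gg_gen (hDt t) t (hy t) b.2.1 g1 g2 s]
        · rw [← map_prod, Finset.prod_inv_distrib, map_inv₀, map_prod]
          congr 1
          rw [← loc (fun i => -cs b.1 (d i)) hzc ((starRingEnd ℂ) X * Q) hc1 hc3]
          refine Finset.prod_congr rfl fun t _ => ?_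
          rw [gg_gen (hDt t) t (hy t) b.2.1 g1 g2, map_sub, map_one, map_mul, map_mul,
            conj_int_cpow (nr_nonneg b.1), map_neg, Complex.conj_conj, map_pow]
      rw [hval]
      refine (hasProd_fintype _).congr_fun fun v => ?_
      exact (hconst v)
    · have h1 := hasProd_prod (s := (Finset.univ : Finset (I → ZMod 3)))
        fun t _ => (hL3 t s hs).mul
          ((hL3 t _ hsc).map (starRingEnd ℂ) Complex.continuous_conj)
      exact h1

end Pool.Agent.U854.TW
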