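import Pool.Agent.U854.TW.C

/-!
# The joint law, indexed by the twists
-/

set_option autoImplicit false
set_option linter.unusedSectionVars false
set_option linter.unusedVariables false

open scoped Classical

namespace Pool.Agent.U854.TW

open NumberField Filter Module
open Pool.Agent.XL6 (SelK)
open Pool.Agent.Y696.CTK (ED Tri Parts parts ClsK)
open Pool.Agent.Y703.XL (cr)
open Q283.T3B (NC law_T law_A low_K fin_K Msk)

variable {K : Type} [Field K] [NumberField K]

theorem prodd_ne {n : ℕ} {d : Fin n → 𝓞 K} (hd : Family d) : ∏ i, d i ≠ 0 :=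
  Finset.prod_ne_zero_iff.2 fun i _ => d_ne hd i

/-- the multipliers -/
theorem msk {n : ℕ} {d : Fin n → 𝓞 K} (hd : Family d) {M : ℕ} (e : (Fin n → ZMod 3) ≃ Fin M) :
    Msk (fun k => mt d (e.symm k)) where
  three k := mt_three hd _
  nine k := mt_nine hd _
  ne k l hkl h := hkl (e.symm.injective (mt_cube hd h))

/-- **The joint law of the `3 ^ n` twists.** -/
theorem law_tw (K : Type) [Field K] [NumberField K] [IsCyclotomicExtension {3} ℚ K] {n : ℕ}
    {d : Fin n → 𝓞 K} (hd : Family d) (T : Set ((Fin n → ZMod 3) → ℕ)) :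
    Tendsto (fun X : ℕ =>
      ({D : 𝓞 K | Algebra.norm ℤ D ≤ X ∧ ClsK D ∧ NC D (∏ i, d i) ∧
        ∃ r ∈ T, ∀ t, (SelK ((D * mt d t : 𝓞 K) : K)).ncard = 3 ^ (r t + 1)}.ncard : ℝ) /
        ({D : 𝓞 K | Algebra.norm ℤ D ≤ X ∧ ClsK D ∧ NC D (∏ i, d i)}.ncard : ℝ)) atTop
      (nhds (∑' r : T, ∏ t, cr (r.1 t))) := by
  let e : (Fin n → ZMod 3) ≃ Fin (Fintype.card (Fin n → ZMod 3)) := Fintype.equivFin _
  let T' : Set (Fin (Fintype.card (Fin n → ZMod 3)) → ℕ) := {r | (fun t => r (e t)) ∈ T}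
  have h := law_T K (fun k => mt d (e.symm k)) (msk hd e) (∏ i, d i) (prodd_ne hd) T'
  let E : T' ≃ T :=
    { toFun := fun r => ⟨fun t => r.1 (e t), r.2⟩
      invFun := fun r => ⟨fun k => r.1 (e.symm k), by
        show (fun t => r.1 (e.symm (e t))) ∈ T
        simp only [Equiv.symm_apply_apply]
        exact r.2⟩
      left_inv := fun r => by
        apply Subtype.ext
        funext k
        simp
      right_inv := fun r => by
        apply Subtype.ext
        funext t
        simp }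
  have hs : ∑' r : T', ∏ k, cr (r.1 k) = ∑' r : T, ∏ t, cr (r.1 t) := by
    rw [← E.tsum_eq]
    refine tsum_congr fun r => ?_
    show ∏ k, cr (r.1 k) = ∏ t, cr (r.1 (e t))
    exact (e.prod_comp fun k => cr (r.1 k)).symm
  rw [hs] at h
  refine h.congr fun X => ?_
  congr 3
  ext D
  refine and_congr_right fun _ => and_congr_right fun _ => and_congr_right fun _ => ?_
  constructor
  · rintro ⟨r, h1, h2⟩
    refine ⟨fun t => r (e t), h1, fun t => ?_⟩
    have h3 := h2 (e t)
    rwa [e.symm_apply_apply] at h3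
  · rintro ⟨r, h1, h2⟩
    refine ⟨fun k => r (e.symm k), ?_, fun k => h2 (e.symm k)⟩
    show (fun t => r (e.symm (e t))) ∈ T
    simp only [Equiv.symm_apply_apply]
    exact h1

/-- **The law of the set of the trivial twists.** -/
theorem law_triv (K : Type) [Field K] [NumberField K] [IsCyclotomicExtension {3} ℚ K] {n : ℕ}
    {d : Fin n → 𝓞 K} (hd : Family d) (A : Finset (Fin n → ZMod 3)) :
    Tendsto (fun X : ℕ =>
      ({D : 𝓞 K | Algebra.norm ℤ D ≤ X ∧ ClsK D ∧ NC D (∏ i, d i) ∧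
        ∀ t, (Tri (D * mt d t) ↔ t ∈ A)}.ncard : ℝ) /
        ({D : 𝓞 K | Algebra.norm ℤ D ≤ X ∧ ClsK D ∧ NC D (∏ i, d i)}.ncard : ℝ)) atTop
      (nhds (cr 0 ^ A.card * (1 - cr 0) ^ (3 ^ n - A.card))) := by
  let e : (Fin n → ZMod 3) ≃ Fin (Fintype.card (Fin n → ZMod 3)) := Fintype.equivFin _
  have h := law_A K (fun k => mt d (e.symm k)) (msk hd e) (∏ i, d i) (prodd_ne hd)
    (A.map e.toEmbedding)
  have h0 : cr 0 = Pool.Agent.Y703.XK.c9 := by
    unfold Pool.Agent.Y703.XL.cr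
    rw [Finset.prod_range_zero, div_one]
  rw [Finset.card_map, ← h0] at h
  have hc : Fintype.card (Fin n → ZMod 3) = 3 ^ n := by
    rw [Fintype.card_fun, ZMod.card, Fintype.card_fin]
  rw [← hc]
  refine h.congr fun X => ?_
  congr 3
  ext D
  refine and_congr_right fun _ => and_congr_right fun _ => and_congr_right fun _ => ?_
  constructor
  · intro h1 t
    have h2 := h1 (e t)
    rw [e.symm_apply_apply] at h2
    rw [h2]
    simp
  · intro h1 k
    rw [h1 (e.symm k)]
    constructor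
    · intro h2
      exact Finset.mem_map.2 ⟨_, h2, e.apply_symm_apply k⟩
    · intro h2
      obtain ⟨t, h3, h4⟩ := Finset.mem_map.1 h2
      rw [← h4]
      have : e.symm (e.toEmbedding t) = t := e.symm_apply_apply t
      rw [this]
      exact h3

/-- monotonicity of the lower limits -/
theorem lower {α : Type} {S : ℕ → Set α} (hS : ∀ X, (S X).Finite) {p q : α → Prop} {L : ℝ}
    (h : Tendsto (fun X : ℕ => ({a | a ∈ S X ∧ p a}.ncard : ℝ) / ((S X).ncard : ℝ)) atTop (nhds L))
    (hpq : ∀ X, ∀ a ∈ S X, p a → q a) {ε : ℝ} (hε : 0 < ε) :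
    ∀ᶠ X : ℕ in atTop, L - ε ≤ ({a | a ∈ S X ∧ q a}.ncard : ℝ) / ((S X).ncard : ℝ) := by
  filter_upwards [(tendsto_order.1 h).1 (L - ε) (by linarith)] with X hX
  refine hX.le.trans ?_
  refine div_le_div_of_nonneg_right ?_ (Nat.cast_nonneg _)
  have h1 : {a | a ∈ S X ∧ p a} ⊆ {a | a ∈ S X ∧ q a} := fun a ha => ⟨ha.1, hpq X a ha.1 ha.2⟩
  have h2 : {a | a ∈ S X ∧ q a}.Finite := (hS X).subset fun a ha => ha.1
  exact_mod_cast Set.ncard_le_ncard h1 h2

end Pool.Agent.U854.TW
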